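import Pool.Agent.H10.OM.AR2

/-!
# Project OM, module AR1: the scalar products are bounded (helper10 for helper19)
-/

set_option autoImplicit false

namespace Pool.Agent.H10.OM

open Finset Pool.Agent.H19.OM

theorem count_dvd' (d k r : ℕ) (hd : 0 < d) :
    (((range k).filter (fun i => d ∣ i + r)).card : ℝ) ≤ (k : ℝ) / d + 1 := by
  have h1 : ((range k).filter (fun i => d ∣ i + r)).card ≤ k / d + 1 := by
    refine le_trans (card_le_card ?_) (count_dvd d (k / d + 1) r hd)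
    intro i hi
    rw [mem_filter, mem_range] at hi ⊢
    exact ⟨hi.1.trans (Nat.lt_mul_div_succ k hd), hi.2⟩
  have h2 : (((range k).filter (fun i => d ∣ i + r)).card : ℝ) ≤ ((k / d + 1 : ℕ) : ℝ) := by
    exact_mod_cast h1
  have h3 : ((k / d : ℕ) : ℝ) ≤ (k : ℝ) / d := Nat.cast_div_le
  push_cast at h2
  linarith

theorem sum_sq' (p k r : ℕ) (hp : 2 ≤ p) : ∀ L,
    (∑ i ∈ range k, ((val p L (i + r) : ℝ)) ^ 2) + (4 * L + 6) * (k : ℝ) / (p : ℝ) ^ (L + 1) ≤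
      6 / p * k + (L : ℝ) ^ 2 := by
  have hp0 : (0 : ℝ) < p := by positivity
  intro L
  induction L with
  | zero =>
    simp only [val_zero]
    simp
    apply le_of_eq
    field_simp
  | succ L ih =>
    have h1 : (∑ i ∈ range k, ((val p (L + 1) (i + r) : ℝ)) ^ 2) ≤
        (∑ i ∈ range k, ((val p L (i + r) : ℝ)) ^ 2) +
          (2 * L + 1) * ((k : ℝ) / (p : ℝ) ^ (L + 1) + 1) := by
      have h2 : (∑ i ∈ range k, ((val p (L + 1) (i + r))) ^ 2) ≤
          (∑ i ∈ range k, ((val p L (i + r))) ^ 2) +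
            (2 * L + 1) * ((range k).filter (fun i => p ^ (L + 1) ∣ i + r)).card := by
        refine (sum_le_sum fun i _ => sq_step p L (i + r)).trans ?_
        rw [sum_add_distrib, ← mul_sum, ← card_filter]
      have h3 := count_dvd' (p ^ (L + 1)) k r (by positivity)
      rw [Nat.cast_pow] at h3
      have h4 : (∑ i ∈ range k, ((val p (L + 1) (i + r) : ℝ)) ^ 2) ≤
          (∑ i ∈ range k, ((val p L (i + r) : ℝ)) ^ 2) +
            (2 * L + 1) * (((range k).filter (fun i => p ^ (L + 1) ∣ i + r)).card : ℝ) := by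
        exact_mod_cast h2
      refine h4.trans (add_le_add le_rfl (mul_le_mul_of_nonneg_left h3 (by positivity)))
    have h5 : (4 * ((L + 1 : ℕ) : ℝ) + 6) * (k : ℝ) / (p : ℝ) ^ (L + 1 + 1) ≤
        (2 * L + 5) * ((k : ℝ) / (p : ℝ) ^ (L + 1)) := by
      rw [← mul_div_assoc, div_le_div_iff₀ (by positivity) (by positivity)]
      have h6 : (p : ℝ) ^ (L + 1 + 1) = (p : ℝ) ^ (L + 1) * p := pow_succ _ _
      rw [h6]
      have hp2 : (2 : ℝ) ≤ p := by exact_mod_cast hp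
      have h7 : (4 * ((L + 1 : ℕ) : ℝ) + 6) ≤ (2 * L + 5) * p := by
        push_cast
        nlinarith [(Nat.cast_nonneg L : (0 : ℝ) ≤ L)]
      calc (4 * ((L + 1 : ℕ) : ℝ) + 6) * (k : ℝ) * (p : ℝ) ^ (L + 1) =
            (4 * ((L + 1 : ℕ) : ℝ) + 6) * ((k : ℝ) * (p : ℝ) ^ (L + 1)) := by ring
        _ ≤ ((2 * L + 5) * p) * ((k : ℝ) * (p : ℝ) ^ (L + 1)) :=
            mul_le_mul_of_nonneg_right h7 (by positivity)
        _ = _ := by ring
    have h8 : (4 * (L : ℝ) + 6) * (k : ℝ) / (p : ℝ) ^ (L + 1) =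
        (2 * L + 1) * ((k : ℝ) / (p : ℝ) ^ (L + 1)) +
        (2 * L + 5) * ((k : ℝ) / (p : ℝ) ^ (L + 1)) := by ring
    rw [h8] at ih
    have h9 : (((L + 1 : ℕ) : ℝ)) ^ 2 = (L : ℝ) ^ 2 + (2 * L + 1) := by push_cast; ring
    rw [h9]
    have h10 : (2 * (L : ℝ) + 1) * ((k : ℝ) / (p : ℝ) ^ (L + 1) + 1) =
        (2 * L + 1) * ((k : ℝ) / (p : ℝ) ^ (L + 1)) + (2 * L + 1) := by ring
    rw [h10] at h1
    linarith

theorem sum_sq_le' (p k r L : ℕ) (hp : 2 ≤ p) :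
    (∑ i : Fin k, ((val p L (r + i) : ℝ)) ^ 2) ≤ 3 * k + (L : ℝ) ^ 2 := by
  have hp0 : (0 : ℝ) < p := by positivity
  have h := sum_sq' p k r hp L
  have h1 : 0 ≤ (4 * (L : ℝ) + 6) * (k : ℝ) / (p : ℝ) ^ (L + 1) := by positivity
  have h2 : 6 / (p : ℝ) * k ≤ 3 * k := by
    refine mul_le_mul_of_nonneg_right ?_ (Nat.cast_nonneg _)
    rw [div_le_iff₀ hp0]
    have hp2 : (2 : ℝ) ≤ p := by exact_mod_cast hp
    linarith
  have h3 : (∑ i : Fin k, ((val p L (r + i) : ℝ)) ^ 2) =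
      ∑ i ∈ range k, ((val p L (i + r) : ℝ)) ^ 2 := by
    rw [Fin.sum_univ_eq_sum_range (fun i => ((val p L (r + i) : ℝ)) ^ 2) k]
    refine sum_congr rfl fun i _ => ?_
    rw [add_comm]
  rw [h3]
  linarith

/-- MODULE AR1 -/
theorem t_AR1 : S_AR1 := by
  intro p L k hp r s
  have h1 := sum_sq_le' p k r L hp.two_le
  have h2 := sum_sq_le' p k s L hp.two_le
  have h3 : (∑ i : Fin k, (val p L (r + i) : ℝ) * val p L (s + i)) ≤
      ∑ i : Fin k, (((val p L (r + i) : ℝ)) ^ 2 + ((val p L (s + i) : ℝ)) ^ 2) / 2 := by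
    refine sum_le_sum fun i _ => ?_
    nlinarith [sq_nonneg (((val p L (r + i) : ℝ)) - ((val p L (s + i) : ℝ)))]
  rw [← sum_div, sum_add_distrib] at h3
  linarith

end Pool.Agent.H10.OM
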