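import Pool.Agent.H19.OM.Stm

/-!
# Project OM, module AR2: the mean square of the scalar products (helper10 for helper19)
-/

set_option autoImplicit false

namespace Pool.Agent.H10.OM

open Finset Pool.Agent.H19.OM

theorem val_le (p L m : ℕ) : val p L m ≤ L := by
  unfold Pool.Agent.H19.OM.val
  refine (card_filter_le _ _).trans ?_
  simp

theorem val_succ (p L m : ℕ) : val p (L + 1) m = val p L m + if p ^ (L + 1) ∣ m then 1 else 0 := by
  unfold Pool.Agent.H19.OM.val
  rw [card_filter, card_filter, sum_Icc_succ_top (by omega)]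

theorem val_zero (p m : ℕ) : val p 0 m = 0 := by
  unfold Pool.Agent.H19.OM.val
  simp

/-- multiples in an interval -/
theorem count_dvd (d N i : ℕ) (hd : 0 < d) :
    ((range (d * N)).filter (fun r => d ∣ r + i)).card ≤ N := by
  have h1 : ((range (d * N)).filter (fun r => d ∣ r + i)).card ≤
      (Ico ((i + d - 1) / d) ((i + d - 1) / d + N)).card := by
    refine card_le_card_of_injOn (fun r => (r + i) / d) ?_ ?_
    · intro r hr
      rw [mem_coe, mem_filter, mem_range] at hr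
      obtain ⟨q, hq⟩ := hr.2
      have h2 : (r + i) / d = q := by rw [hq, Nat.mul_div_cancel_left _ hd]
      rw [mem_coe]
      simp only [h2]
      rw [mem_Ico]
      have h3 : d * ((i + d - 1) / d) ≤ i + d - 1 := Nat.mul_div_le _ _
      have h4 : i + d - 1 < d * ((i + d - 1) / d + 1) := Nat.lt_mul_div_succ _ hd
      generalize (i + d - 1) / d = q0 at h3 h4 ⊢
      constructor
      · by_contra hlt
        push Not at hlt
        have h5 : d * (q + 1) ≤ d * q0 := Nat.mul_le_mul_left _ hlt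
        rw [mul_add, mul_one] at h5
        omega
      · have h6 : d * q < d * (q0 + N) := by
          rw [mul_add, mul_one] at h4
          rw [mul_add]
          omega
        exact lt_of_mul_lt_mul_left h6 (Nat.zero_le _)
    · intro r hr s hs hrs
      rw [mem_coe, mem_filter] at hr hs
      obtain ⟨q, hq⟩ := hr.2
      obtain ⟨q', hq'⟩ := hs.2
      have hrs' : (r + i) / d = (s + i) / d := hrs
      rw [hq, hq', Nat.mul_div_cancel_left _ hd, Nat.mul_div_cancel_left _ hd] at hrs'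
      rw [hrs', ← hq'] at hq
      omega
  simpa using h1

theorem sq_step (p L m : ℕ) :
    (val p (L + 1) m) ^ 2 ≤ (val p L m) ^ 2 + (2 * L + 1) * if p ^ (L + 1) ∣ m then 1 else 0 := by
  rw [val_succ]
  have h := val_le p L m
  split
  · nlinarith
  · simp

/-- the mean square of one exponent -/
theorem sum_sq (p M i : ℕ) (hp : 2 ≤ p) : ∀ L, L ≤ M →
    (∑ r ∈ range (p ^ M), ((val p L (r + i) : ℝ)) ^ 2) +
      (4 * L + 6) * (p : ℝ) ^ M / (p : ℝ) ^ (L + 1) ≤ 6 / p * (p : ℝ) ^ M := by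
  have hp0 : (0 : ℝ) < p := by positivity
  intro L
  induction L with
  | zero =>
    intro _
    simp only [val_zero]
    simp
    apply le_of_eq
    field_simp
  | succ L ih =>
    intro hL
    refine le_trans ?_ (ih (by omega))
    have h1 : (∑ r ∈ range (p ^ M), ((val p (L + 1) (r + i) : ℝ)) ^ 2) ≤
        (∑ r ∈ range (p ^ M), ((val p L (r + i) : ℝ)) ^ 2) +
          (2 * L + 1) * ((p : ℝ) ^ M / (p : ℝ) ^ (L + 1)) := by
      have h2 : (∑ r ∈ range (p ^ M), ((val p (L + 1) (r + i))) ^ 2) ≤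
          (∑ r ∈ range (p ^ M), ((val p L (r + i))) ^ 2) + (2 * L + 1) * p ^ (M - (L + 1)) := by
        refine (sum_le_sum fun r _ => sq_step p L (r + i)).trans ?_
        rw [sum_add_distrib, ← mul_sum, ← card_filter]
        refine Nat.add_le_add_left (Nat.mul_le_mul_left _ ?_) _
        have h3 : p ^ M = p ^ (L + 1) * p ^ (M - (L + 1)) := by
          rw [← pow_add]
          congr 1
          omega
        rw [h3]
        exact count_dvd _ _ _ (by positivity)
      have h4 : ((p : ℝ) ^ M / (p : ℝ) ^ (L + 1)) = ((p ^ (M - (L + 1)) : ℕ) : ℝ) := by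
        rw [div_eq_iff (by positivity), Nat.cast_pow, ← pow_add]
        congr 1
        omega
      rw [h4]
      exact_mod_cast h2
    have h5 : (4 * ((L + 1 : ℕ) : ℝ) + 6) * (p : ℝ) ^ M / (p : ℝ) ^ (L + 1 + 1) ≤
        (2 * L + 5) * ((p : ℝ) ^ M / (p : ℝ) ^ (L + 1)) := by
      rw [← mul_div_assoc, div_le_div_iff₀ (by positivity) (by positivity)]
      have h6 : (p : ℝ) ^ (L + 1 + 1) = (p : ℝ) ^ (L + 1) * p := pow_succ _ _
      rw [h6]
      have hp2 : (2 : ℝ) ≤ p := by exact_mod_cast hp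
      have h7 : (4 * ((L + 1 : ℕ) : ℝ) + 6) ≤ (2 * L + 5) * p := by
        push_cast
        nlinarith [(Nat.cast_nonneg L : (0 : ℝ) ≤ L)]
      calc (4 * ((L + 1 : ℕ) : ℝ) + 6) * (p : ℝ) ^ M * (p : ℝ) ^ (L + 1) =
            (4 * ((L + 1 : ℕ) : ℝ) + 6) * ((p : ℝ) ^ M * (p : ℝ) ^ (L + 1)) := by ring
        _ ≤ ((2 * L + 5) * p) * ((p : ℝ) ^ M * (p : ℝ) ^ (L + 1)) :=
            mul_le_mul_of_nonneg_right h7 (by positivity)
        _ = _ := by ring
    have h8 : (4 * (L : ℝ) + 6) * (p : ℝ) ^ M / (p : ℝ) ^ (L + 1) =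
        (2 * L + 1) * ((p : ℝ) ^ M / (p : ℝ) ^ (L + 1)) +
        (2 * L + 5) * ((p : ℝ) ^ M / (p : ℝ) ^ (L + 1)) := by ring
    rw [h8]
    linarith

theorem sum_sq_le (p L i : ℕ) (hp : 2 ≤ p) :
    (∑ r ∈ range (p ^ L), ((val p L (r + i) : ℝ)) ^ 2) ≤ 6 / p * (p : ℝ) ^ L := by
  have h := sum_sq p L i hp L le_rfl
  have h1 : 0 ≤ (4 * (L : ℝ) + 6) * (p : ℝ) ^ L / (p : ℝ) ^ (L + 1) := by positivity
  linarith

/-- the covariances -/
theorem cov (p L i j : ℕ) (hp : 2 ≤ p) :
    (∑ r ∈ range (p ^ L), ((val p L (r + i) : ℝ)) * val p L (r + j)) ≤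
      if i % p = j % p then 6 / p * (p : ℝ) ^ L else 0 := by
  split
  · have h1 : (∑ r ∈ range (p ^ L), ((val p L (r + i) : ℝ)) * val p L (r + j)) ≤
        ∑ r ∈ range (p ^ L), (((val p L (r + i) : ℝ)) ^ 2 + ((val p L (r + j) : ℝ)) ^ 2) / 2 := by
      refine sum_le_sum fun r _ => ?_
      nlinarith [sq_nonneg (((val p L (r + i) : ℝ)) - ((val p L (r + j) : ℝ)))]
    rw [← sum_div, sum_add_distrib] at h1
    have h2 := sum_sq_le p L i hp
    have h3 := sum_sq_le p L j hp
    linarith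
  · rename_i hij
    apply le_of_eq
    refine sum_eq_zero fun r _ => ?_
    by_cases hi : p ∣ r + i
    · by_cases hj : p ∣ r + j
      · exfalso
        apply hij
        have h1 : (r + i) ≡ (r + j) [MOD p] :=
          (Nat.modEq_zero_iff_dvd.2 hi).trans (Nat.modEq_zero_iff_dvd.2 hj).symm
        exact Nat.ModEq.add_left_cancel' r h1
      · have : val p L (r + j) = 0 := by
          unfold Pool.Agent.H19.OM.val
          rw [card_eq_zero, filter_eq_empty_iff]
          intro a ha hd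
          rw [mem_Icc] at ha
          exact hj ((dvd_pow_self p (by omega)).trans hd)
        rw [this]
        simp
    · have : val p L (r + i) = 0 := by
        unfold Pool.Agent.H19.OM.val
        rw [card_eq_zero, filter_eq_empty_iff]
        intro a ha hd
        rw [mem_Icc] at ha
        exact hi ((dvd_pow_self p (by omega)).trans hd)
      rw [this]
      simp

theorem cov_nonneg (p L i j : ℕ) :
    0 ≤ (∑ r ∈ range (p ^ L), ((val p L (r + i) : ℝ)) * val p L (r + j)) :=
  sum_nonneg fun _ _ => by positivity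

theorem class_card (p k i : ℕ) (hp : 2 ≤ p) :
    (((univ : Finset (Fin k)).filter (fun j : Fin k => i % p = (j : ℕ) % p)).card : ℝ) ≤ (k : ℝ) / p + 1 := by
  have h1 : ((univ : Finset (Fin k)).filter (fun j : Fin k => i % p = (j : ℕ) % p)).card ≤
      (range (k / p + 1)).card := by
    refine card_le_card_of_injOn (fun j => (j : ℕ) / p) ?_ ?_
    · intro j _
      rw [mem_coe, mem_range]
      exact Nat.lt_succ_of_le (Nat.div_le_div_right j.2.le)
    · intro j hj l hl hjl
      rw [mem_coe, mem_filter] at hj hl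
      have h2 : (j : ℕ) / p = (l : ℕ) / p := hjl
      have h3 : (j : ℕ) % p = (l : ℕ) % p := hj.2.symm.trans hl.2
      apply Fin.ext
      rw [← Nat.div_add_mod (j : ℕ) p, ← Nat.div_add_mod (l : ℕ) p, h2, h3]
  rw [card_range] at h1
  have h4 : ((k / p : ℕ) : ℝ) ≤ (k : ℝ) / p := Nat.cast_div_le
  have h5 : (((univ : Finset (Fin k)).filter (fun j : Fin k => i % p = (j : ℕ) % p)).card : ℝ) ≤
      ((k / p + 1 : ℕ) : ℝ) := by exact_mod_cast h1
  push_cast at h5
  linarith

theorem expand (R : Finset ℕ) (k : ℕ) (X : ℕ → Fin k → ℝ) :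
    (∑ r ∈ R, ∑ s ∈ R, (∑ i, X r i * X s i) ^ 2) = ∑ i, ∑ j, (∑ r ∈ R, X r i * X r j) ^ 2 := by
  have h1 : ∀ r s, (∑ i, X r i * X s i) ^ 2 = ∑ i, ∑ j, (X r i * X r j) * (X s i * X s j) := by
    intro r s
    rw [sq, sum_mul_sum]
    refine sum_congr rfl fun i _ => sum_congr rfl fun j _ => ?_
    ring
  have h2 : ∀ i j, (∑ r ∈ R, X r i * X r j) ^ 2 =
      ∑ r ∈ R, ∑ s ∈ R, (X r i * X r j) * (X s i * X s j) := by
    intro i j
    rw [sq, sum_mul_sum]
  simp_rw [h1, h2]
  calc ∑ r ∈ R, ∑ s ∈ R, ∑ i, ∑ j, (X r i * X r j) * (X s i * X s j) =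
        ∑ r ∈ R, ∑ i, ∑ s ∈ R, ∑ j, (X r i * X r j) * (X s i * X s j) :=
        sum_congr rfl fun r _ => sum_comm
    _ = ∑ i, ∑ r ∈ R, ∑ s ∈ R, ∑ j, (X r i * X r j) * (X s i * X s j) := sum_comm
    _ = ∑ i, ∑ r ∈ R, ∑ j, ∑ s ∈ R, (X r i * X r j) * (X s i * X s j) :=
        sum_congr rfl fun i _ => sum_congr rfl fun r _ => sum_comm
    _ = ∑ i, ∑ j, ∑ r ∈ R, ∑ s ∈ R, (X r i * X r j) * (X s i * X s j) :=
        sum_congr rfl fun i _ => sum_comm

/-- MODULE AR2 -/
theorem t_AR2 : S_AR2 := by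
  intro p L k hp
  have hp2 := hp.two_le
  have hp0 : (0 : ℝ) < p := by
    have : 0 < p := by omega
    exact_mod_cast this
  rw [div_le_iff₀ (by positivity)]
  rw [expand (range (p ^ L)) k (fun r i => (val p L (r + i) : ℝ))]
  have h1 : ∀ i j : Fin k, (∑ r ∈ range (p ^ L), (val p L (r + i) : ℝ) * val p L (r + j)) ^ 2 ≤
      if (i : ℕ) % p = (j : ℕ) % p then (6 / p * (p : ℝ) ^ L) ^ 2 else 0 := by
    intro i j
    have h2 := cov p L i j hp2
    have h3 := cov_nonneg p L i j
    split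
    · rename_i hij
      rw [if_pos hij] at h2
      exact pow_le_pow_left₀ h3 h2 2
    · rename_i hij
      rw [if_neg hij] at h2
      have h4 := le_antisymm h2 h3
      rw [h4]
      simp
  refine (sum_le_sum fun i _ => sum_le_sum fun j _ => h1 i j).trans ?_
  have h2 : ∀ i : Fin k, (∑ j : Fin k, if (i : ℕ) % p = (j : ℕ) % p then (6 / p * (p : ℝ) ^ L) ^ 2
      else 0) ≤ ((k : ℝ) / p + 1) * (6 / p * (p : ℝ) ^ L) ^ 2 := by
    intro i
    rw [← sum_filter, sum_const, nsmul_eq_mul]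
    exact mul_le_mul_of_nonneg_right (class_card p k i hp2) (by positivity)
  refine (sum_le_sum fun i _ => h2 i).trans ?_
  rw [sum_const, nsmul_eq_mul, card_univ, Fintype.card_fin]
  apply le_of_eq
  field_simp
  ring

end Pool.Agent.H10.OM
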