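import Pool.Agent.H19.OM.Stm2

/-!
# Project OM, module RES: functions of the first coordinates (helper10 for helper19)
-/

set_option autoImplicit false

namespace Pool.Agent.H10.OM

open Finset Pool.Agent.H19.OM

theorem sum_first (A : Finset ℕ) (k d : ℕ) (F : (Fin k → ℕ) → ℝ) :
    (∑ m ∈ Fintype.piFinset (fun _ : Fin (k + d) => A), F (fun i => m (Fin.castAdd d i))) =
      (A.card : ℝ) ^ d * ∑ m ∈ Fintype.piFinset (fun _ : Fin k => A), F m := by
  have h1 : (∑ m ∈ Fintype.piFinset (fun _ : Fin (k + d) => A), F (fun i => m (Fin.castAdd d i))) =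
      ∑ q ∈ Fintype.piFinset (fun _ : Fin k => A) ×ˢ Fintype.piFinset (fun _ : Fin d => A), F q.1 := by
    refine sum_nbij' (fun m => (fun i => m (Fin.castAdd d i), fun i => m (Fin.natAdd k i)))
      (fun q => Fin.append q.1 q.2) ?_ ?_ ?_ ?_ ?_
    · intro m hm
      rw [Fintype.mem_piFinset] at hm
      rw [mem_product, Fintype.mem_piFinset, Fintype.mem_piFinset]
      exact ⟨fun i => hm _, fun i => hm _⟩
    · intro q hq
      rw [mem_product, Fintype.mem_piFinset, Fintype.mem_piFinset] at hq
      rw [Fintype.mem_piFinset]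
      intro i
      refine Fin.addCases (fun j => ?_) (fun j => ?_) i
      · rw [Fin.append_left]
        exact hq.1 j
      · rw [Fin.append_right]
        exact hq.2 j
    · intro m _
      funext i
      refine Fin.addCases (fun j => ?_) (fun j => ?_) i
      · rw [Fin.append_left]
      · rw [Fin.append_right]
    · intro q _
      refine Prod.ext ?_ ?_
      · funext i
        exact Fin.append_left _ _ _
      · funext i
        exact Fin.append_right _ _ _
    · intro m _
      rfl
  rw [h1, sum_product]
  simp only [sum_const, Fintype.card_piFinset, prod_const, card_univ, Fintype.card_fin,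
    nsmul_eq_mul, Nat.cast_pow]
  rw [mul_sum]

/-- MODULE RES -/
theorem t_RES : S_RES := by
  intro y N k k' h φ hN
  refine ⟨rfl, ?_⟩
  obtain ⟨d, rfl⟩ : ∃ d, k = k' + d := ⟨k - k', by omega⟩
  have hN0 : (N : ℝ) ≠ 0 := by
    have : N ≠ 0 := by omega
    exact_mod_cast this
  unfold prd
  have h1 := sum_first (Icc 1 N) k' d (fun z => φ (fun i => Om y (z i)))
  have h2 : (∑ m ∈ Fintype.piFinset (fun _ : Fin (k' + d) => Icc 1 N),
      φ (fun i => Om y (m (Fin.castLE h i)))) =
      (N : ℝ) ^ d * ∑ m ∈ Fintype.piFinset (fun _ : Fin k' => Icc 1 N), φ (fun i => Om y (m i)) := by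
    rw [Nat.card_Icc, Nat.add_sub_cancel] at h1
    exact h1
  rw [h2, pow_add]
  field_simp

end Pool.Agent.H10.OM
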